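import Pool.Agent.W247.ET.Stm

/-! Project ET (helper247), UPY. -/

set_option autoImplicit false

open Finset

namespace Pool.Agent.W591.ET.UPY

open Pool.Agent.W247.ET

theorem sum_sq (L : ℕ) : ∑ k ∈ Icc 1 L, 1 / (k : ℝ) ^ 2 ≤ 2 := by
  have h := sum_Ioo_inv_sq_le (α := ℝ) 0 (L + 1)
  have e : Ioo 0 (L + 1) = Icc 1 L := by
    ext k
    rw [mem_Ioo, mem_Icc]
    omega
  rw [e] at h
  simpa using h

theorem pointwise (K J : ℕ) (hJ : 1 ≤ J) (r : ℕ → ℝ) (hr : ∀ n, 0 ≤ r n ∧ r n ≤ K) (k : ℕ)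
    (hk : 1 ≤ k) :
    1 / 2 * (Mw r J k ^ 2 / k) - 1 / 2 * ((K : ℝ) ^ 2 * J) * (1 / (k : ℝ) ^ 2) ≤
      (∑ i ∈ range J, ∑ i' ∈ range J, r (k + i) * r (k + i') /
        (2 * (k : ℝ) + i + i')) / (J : ℝ) ^ 2 := by
  have hJ0 : (0 : ℝ) < J := by exact_mod_cast hJ
  have hk0 : (0 : ℝ) < k := by exact_mod_cast hk
  have hkJ : (0 : ℝ) < k + J := by linarith
  have hM0 : 0 ≤ Mw r J k := div_nonneg (sum_nonneg fun i _ => (hr _).1) hJ0.le
  have hMK : Mw r J k ≤ K := by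
    rw [Mw, div_le_iff₀ hJ0]
    calc ∑ i ∈ range J, r (k + i) ≤ ∑ _i ∈ range J, (K : ℝ) := sum_le_sum fun i _ => (hr _).2
      _ = K * J := by rw [sum_const, card_range, nsmul_eq_mul, mul_comm]
  have h1 : (Mw r J k ^ 2 / (2 * ((k : ℝ) + J))) * (J : ℝ) ^ 2 ≤
      ∑ i ∈ range J, ∑ i' ∈ range J, r (k + i) * r (k + i') / (2 * (k : ℝ) + i + i') := by
    have e : (Mw r J k ^ 2 / (2 * ((k : ℝ) + J))) * (J : ℝ) ^ 2 =
        ∑ i ∈ range J, ∑ i' ∈ range J, r (k + i) * r (k + i') / (2 * ((k : ℝ) + J)) := by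
      have e1 : ∑ i ∈ range J, ∑ i' ∈ range J, r (k + i) * r (k + i') / (2 * ((k : ℝ) + J)) =
          (∑ i ∈ range J, r (k + i)) * (∑ i' ∈ range J, r (k + i')) / (2 * ((k : ℝ) + J)) := by
        rw [sum_mul_sum, sum_div]
        refine sum_congr rfl fun i _ => ?_
        rw [sum_div]
      rw [e1, Mw]
      field_simp
    rw [e]
    refine sum_le_sum fun i hi => sum_le_sum fun i' hi' => ?_
    have hi1 : (i : ℝ) ≤ J := by exact_mod_cast (mem_range.1 hi).le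
    have hi2 : (i' : ℝ) ≤ J := by exact_mod_cast (mem_range.1 hi').le
    have hi3 : (0 : ℝ) ≤ i := Nat.cast_nonneg _
    have hi4 : (0 : ℝ) ≤ i' := Nat.cast_nonneg _
    refine div_le_div_of_nonneg_left (mul_nonneg (hr _).1 (hr _).1) (by linarith) (by linarith)
  have h2 : Mw r J k ^ 2 / (2 * ((k : ℝ) + J)) ≤
      (∑ i ∈ range J, ∑ i' ∈ range J, r (k + i) * r (k + i') /
        (2 * (k : ℝ) + i + i')) / (J : ℝ) ^ 2 := by
    rw [le_div_iff₀ (by positivity)]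
    exact h1
  refine le_trans ?_ h2
  have h3 : 1 / 2 * (Mw r J k ^ 2 / k) - Mw r J k ^ 2 / (2 * ((k : ℝ) + J)) =
      1 / 2 * (Mw r J k ^ 2 * J) * (1 / (k * ((k : ℝ) + J))) := by
    field_simp
    ring
  have h4 : 1 / 2 * (Mw r J k ^ 2 * J) * (1 / (k * ((k : ℝ) + J))) ≤
      1 / 2 * ((K : ℝ) ^ 2 * J) * (1 / (k : ℝ) ^ 2) := by
    have h5 : Mw r J k ^ 2 ≤ (K : ℝ) ^ 2 := by
      exact pow_le_pow_left₀ hM0 hMK 2
    have h6 : 1 / (k * ((k : ℝ) + J)) ≤ 1 / (k : ℝ) ^ 2 := by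
      refine one_div_le_one_div_of_le (by positivity) ?_
      nlinarith
    have h7 : 1 / 2 * (Mw r J k ^ 2 * J) ≤ 1 / 2 * ((K : ℝ) ^ 2 * J) := by
      have := mul_le_mul_of_nonneg_right h5 hJ0.le
      linarith
    exact mul_le_mul h7 h6 (by positivity) (by positivity)
  linarith

theorem main : UPY_stmt := by
  intro K J hJ
  refine ⟨(K : ℝ) ^ 2 * J, fun r L hr => ?_⟩
  have h1 : (∑ i ∈ range J, ∑ i' ∈ range J, ∑ k ∈ Icc 1 L, r (k + i) * r (k + i') /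
      (2 * (k : ℝ) + i + i')) / (J : ℝ) ^ 2 =
      ∑ k ∈ Icc 1 L, (∑ i ∈ range J, ∑ i' ∈ range J, r (k + i) * r (k + i') /
        (2 * (k : ℝ) + i + i')) / (J : ℝ) ^ 2 := by
    rw [← sum_div]
    congr 1
    have e : ∀ i ∈ range J, ∑ i' ∈ range J, ∑ k ∈ Icc 1 L, r (k + i) * r (k + i') /
        (2 * (k : ℝ) + i + i') = ∑ k ∈ Icc 1 L, ∑ i' ∈ range J, r (k + i) * r (k + i') /
        (2 * (k : ℝ) + i + i') := fun i _ => sum_comm
    rw [sum_congr rfl e, sum_comm]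
  rw [h1]
  have h2 := sum_le_sum fun k (hk : k ∈ Icc 1 L) =>
    pointwise K J hJ r hr k (mem_Icc.1 hk).1
  refine le_trans ?_ h2
  rw [sum_sub_distrib, ← mul_sum, ← mul_sum]
  have h3 := sum_sq L
  have h4 : (0 : ℝ) ≤ 1 / 2 * ((K : ℝ) ^ 2 * J) := by positivity
  have h5 := mul_le_mul_of_nonneg_left h3 h4
  linarith

end Pool.Agent.W591.ET.UPY
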